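import Mathlib
import Pool.Agent.H39.Tangencies

set_option autoImplicit false

namespace Pool.Agent.Results.MP_1a6bb7_co.SuperlinearTangencies

/-- `F` is a family of `n` pairwise intersecting, `k`-intersecting bi-infinite `x`-monotone curves,
the `i`-th curve being the graph of the continuous function `F i`: any two of the curves share at
least one and at most `k` points (in particular finitely many), and no point lies on three of
them. -/
def IsCurveFamily (k n : ℕ) (F : Fin n → ℝ → ℝ) : Prop :=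
  (∀ i, Continuous (F i)) ∧
  (∀ i j, i ≠ j → {x | F i x = F j x}.Finite ∧ {x | F i x = F j x}.Nonempty ∧
      {x | F i x = F j x}.ncard ≤ k) ∧
  (∀ i j l, i ≠ j → j ≠ l → i ≠ l → ∀ x, ¬ (F i x = F j x ∧ F j x = F l x))

/-- The graphs of `f` and `g` are tangent: they share exactly one point and do not cross there,
that is, away from the common point one of them is strictly above the other. -/
def Tangent (f g : ℝ → ℝ) : Prop :=
  ∃ x₀, f x₀ = g x₀ ∧ ((∀ x, x ≠ x₀ → f x < g x) ∨ (∀ x, x ≠ x₀ → g x < f x))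

/-- The number of tangencies of the family, i.e. of unordered tangent pairs. -/
noncomputable def tangencies (n : ℕ) (F : Fin n → ℝ → ℝ) : ℕ :=
  {p : Fin n × Fin n | p.1 < p.2 ∧ Tangent (F p.1) (F p.2)}.ncard

/-- **Q1 has a negative answer for every `k ≥ 3`.**  For every `k ≥ 3` and every `n ≥ 3` there is a
family of `n` pairwise intersecting, `k`-intersecting bi-infinite `x`-monotone curves with at least
`n ^ (4 / 3) / 100` tangencies, so no bound `C_k n` can hold. -/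
theorem result (k : ℕ) (hk : 3 ≤ k) (n : ℕ) (hn : 3 ≤ n) :
    ∃ F : Fin n → ℝ → ℝ, IsCurveFamily k n F ∧
      (n : ℝ) ^ ((4 : ℝ) / 3) / 100 ≤ tangencies n F := by
  -- the largest `N` with `3 N ^ 3 ≤ n`
  obtain ⟨N, hN, hNn, hnN⟩ : ∃ N : ℕ, 1 ≤ N ∧ 3 * N ^ 3 ≤ n ∧ n < 3 * (N + 1) ^ 3 := by
    have h1 : (fun N => 3 * N ^ 3 ≤ n) 1 := by simpa using hn
    have hle : 1 ≤ n := by omega
    refine ⟨Nat.findGreatest (fun N => 3 * N ^ 3 ≤ n) n, Nat.le_findGreatest hle h1,
      Nat.findGreatest_spec (P := fun N => 3 * N ^ 3 ≤ n) hle h1, ?_⟩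
    by_contra hcon
    push Not at hcon
    set M := Nat.findGreatest (fun N => 3 * N ^ 3 ≤ n) n with hM
    have hMn : M + 1 ≤ n := by
      have : M + 1 ≤ (M + 1) ^ 3 := Nat.le_self_pow (by norm_num) _
      omega
    have := Nat.le_findGreatest (P := fun N => 3 * N ^ 3 ≤ n) hMn hcon
    omega
  obtain ⟨F, hF1, hF2, hF3, hT⟩ := Pool.Agent.H39.Tangencies.exists_family hN hNn
  refine ⟨F, ⟨hF1, fun i j hij => ?_, hF3⟩, ?_⟩
  · obtain ⟨a, b, c⟩ := hF2 i j hij
    exact ⟨a, b, c.trans hk⟩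
  · have hTr : (N : ℝ) ^ 4 ≤ tangencies n F := by exact_mod_cast hT
    refine le_trans ?_ hTr
    have hN1 : (1 : ℝ) ≤ N := by exact_mod_cast hN
    have h1 : (n : ℝ) ≤ 24 * (N : ℝ) ^ 3 := by
      have h2 : (n : ℝ) ≤ 3 * ((N : ℝ) + 1) ^ 3 := by exact_mod_cast hnN.le
      have h3 : ((N : ℝ) + 1) ^ 3 ≤ (2 * N) ^ 3 := pow_le_pow_left₀ (by positivity) (by linarith) 3
      nlinarith
    have h4 : (n : ℝ) ^ ((4 : ℝ) / 3) ≤ 100 * (N : ℝ) ^ 4 := by
      have hpos : (0 : ℝ) ≤ n := Nat.cast_nonneg n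
      have h5 : (n : ℝ) ^ 4 ≤ (100 * (N : ℝ) ^ 4) ^ 3 := by
        calc (n : ℝ) ^ 4 ≤ (24 * (N : ℝ) ^ 3) ^ 4 := pow_le_pow_left₀ hpos h1 4
          _ = 331776 * (N : ℝ) ^ 12 := by ring
          _ ≤ 1000000 * (N : ℝ) ^ 12 := by
            apply mul_le_mul_of_nonneg_right (by norm_num) (by positivity)
          _ = (100 * (N : ℝ) ^ 4) ^ 3 := by ring
      have h6 : (n : ℝ) ^ ((4 : ℝ) / 3) = ((n : ℝ) ^ 4) ^ ((1 : ℝ) / 3) := by
        rw [← Real.rpow_natCast, ← Real.rpow_mul hpos]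
        norm_num
      have h7 : ((100 * (N : ℝ) ^ 4) ^ 3) ^ ((1 : ℝ) / 3) = 100 * (N : ℝ) ^ 4 := by
        rw [← Real.rpow_natCast, ← Real.rpow_mul (by positivity)]
        norm_num
      rw [h6, ← h7]
      exact Real.rpow_le_rpow (by positivity) h5 (by norm_num)
    linarith

end Pool.Agent.Results.MP_1a6bb7_co.SuperlinearTangencies
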